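import Pool.Agent.Q69.HW.Final

/-!
# MP_11bc5f_an: a domain which is not a disc and for which `h_0` is an eigenfunction of `H¹_Ω`

The definitions are in `Pool/Agent/Q69/HW/Base.lean`: `stft` (short-time Fourier transform),
`hermiteFn` (normalised Hermite functions), `IsEigenfunction r j Ω` (`h_j` is an eigenfunction of
the localization operator `H^r_Ω`), and `dom R = {w : |w| < R (arg w)}`.
-/

set_option autoImplicit false

open MeasureTheory

namespace Pool.Agent.Results.MP_11bc5f_an.StarDomain

open Q69.HW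

/-- For every `ε > 0` there is a continuously differentiable `2π`-periodic `R > 0` with
`|R - 1/√π| < ε` such that `Ω = {w : |w| < R (arg w)}` is open, simply connected and of finite
positive measure, is not a disc centred at the origin, even up to a null set, and `h_0` is an
eigenfunction of `H¹_Ω`. -/
theorem result (ε : ℝ) (hε : 0 < ε) :
    ∃ R : ℝ → ℝ, ContDiff ℝ 1 R ∧ (∀ θ, R (θ + 2 * Real.pi) = R θ) ∧
      (∀ θ, 0 < R θ ∧ |R θ - 1 / Real.sqrt Real.pi| < ε) ∧
      IsOpen (dom R) ∧ SimplyConnectedSpace (dom R) ∧ 0 < volume (dom R) ∧ volume (dom R) < ⊤ ∧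
      (∀ ρ : ℝ, ¬ (dom R =ᵐ[volume] {w : ℝ × ℝ | w.1 ^ 2 + w.2 ^ 2 < ρ ^ 2})) ∧
      IsEigenfunction 1 0 (dom R) :=
  final ε hε

end Pool.Agent.Results.MP_11bc5f_an.StarDomain
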